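import Pool.Agent.H515R3.PMDetLow

/-!
# Deterministic k-page migration: between `DS(k)` and `9 DS(k) S(k)`

`DR k` is the optimal deterministic competitive ratio of `k`-page migration (all metric spaces, all
`D ≥ 1`), `DS k` the one of the `k`-server problem, `R k` and `S k` are the optimal randomized
ratios (oblivious adversary) of `k`-page migration and of the `k`-server problem. We prove

`DS k ≤ DR k ≤ 3 * DS k * R k ≤ 9 * DS k * S k` for every `k ≥ 1`.

Upper bound: run a `c`-competitive deterministic `k`-server algorithm `A` on a subsequence of the
requests and keep track of the distribution of a randomized page migration algorithm `H`; forward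
the request `r` to `A` if and only if its distance from the current configuration is more than
`3 c` times the expected distance from the configuration of `H`. The potential is `3 D` times the
expectation, over the configurations `y` of `H`, of the amount that `A` can still lose against `c`
times the offline cost from `y`.
-/

set_option autoImplicit false

open scoped ENNReal NNReal

namespace Pool.Agent.Results.MP_8dbae4_lc.ServerProduct

open Pool.Agent.H515R3.PM

theorem result :
    (∀ k : ℕ, 1 ≤ k → DS k ≤ DR k ∧ DR k ≤ 3 * DS k * R k ∧ DR k ≤ 9 * DS k * S k) ∧
    (∀ k : ℕ, 1 ≤ k → ∀ c β : ℝ≥0, DKSComp k c → PMComp k β → DPMComp k (3 * c * β)) := by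
  refine ⟨fun k hk => ⟨DS_le_DR k hk, DR_le k hk, ?_⟩, fun k hk c β h1 h2 => ?_⟩
  · calc DR k ≤ 3 * DS k * R k := DR_le k hk
      _ ≤ 3 * DS k * (3 * S k) := by
          gcongr
          exact R_le k hk
      _ = 9 * DS k * S k := by ring
  · have : NeZero k := ⟨by omega⟩
    exact dpmComp_of h1 h2

end Pool.Agent.Results.MP_8dbae4_lc.ServerProduct
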